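import Pool.Agent.H5.Pcd3

set_option autoImplicit false

namespace Pool.Agent.Results.MP_9e0a8c_lc.Yes
open Pool.Agent.H5.Pcd

/-- For every odd `n = 2k+1 ≥ 3` and every profile with positive optimum, the approximation
ratio of RD+PCD on the circle is below `3/2`. -/
theorem result (k : ℕ) (_hk : 1 ≤ k) (b : Fin (2 * k + 1) → ℝ)
    (hb : ∀ i, b i ∈ Set.Icc (-1 / 2 : ℝ) (1 / 2))
    (a : Equiv.Perm (Fin (2 * k + 1))) (ha : Monotone (b ∘ a)) (ho : 0 < opt b) :
    (1 / 2 * scRD b + 1 / 2 * scPCD b a) / opt b < 3 / 2 :=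
  main k b hb a ha ho

end Pool.Agent.Results.MP_9e0a8c_lc.Yes
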